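import Mathlib.Data.Set.Card
import Mathlib.Logic.Equiv.Basic

/-!
# Steiner systems on a set and the permutations preserving them
-/

namespace Q202.Steiner

universe u

/-- `B` is a Steiner `k`-system on `Ω`: every block has at least `k + 1` elements, there are at
least two blocks, and any `k` distinct points lie in exactly one block. -/
structure IsSteinerSystem {Ω : Type u} (k : ℕ) (B : Set (Set Ω)) : Prop where
  /-- every block has at least `k + 1` elements -/
  le_encard : ∀ b ∈ B, ((k + 1 : ℕ) : ℕ∞) ≤ b.encard
  /-- there are at least two blocks -/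
  two_blocks : ∃ b ∈ B, ∃ b' ∈ B, b ≠ b'
  /-- any `k` distinct points lie in exactly one block -/
  unique : ∀ s : Set Ω, s.encard = (k : ℕ∞) → ∃! b : Set Ω, b ∈ B ∧ s ⊆ b

/-- The permutation `g` preserves the family `B`, that is, `{g[b] : b ∈ B} = B`. -/
def Preserves {Ω : Type u} (g : Equiv.Perm Ω) (B : Set (Set Ω)) : Prop :=
  (fun b : Set Ω => g '' b) '' B = B

/-- The automorphism group of `(Ω, B)` as a set of permutations. -/
def Aut {Ω : Type u} (B : Set (Set Ω)) : Set (Equiv.Perm Ω) := {g | Preserves g B}

/-- `G` is transitive on ordered `k`-tuples of distinct points. -/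
def IsKTransitive {Ω : Type u} (G : Set (Equiv.Perm Ω)) (k : ℕ) : Prop :=
  ∀ x y : Fin k ↪ Ω, ∃ g ∈ G, ∀ i, g (x i) = y i

end Q202.Steiner
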