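import Pool.Agent.Q202.Steiner.Defs
import Mathlib.LinearAlgebra.FiniteDimensional.Basic
import Mathlib.LinearAlgebra.Span.Basic
import Mathlib.LinearAlgebra.LinearIndependent.Lemmas
import Mathlib.Algebra.CharP.Two
import Mathlib.Data.Set.Card
import Mathlib.Tactic

/-!
# Affine lines over a field with four elements

`lines K V` is the family of the affine lines of a vector space `V` over `K`; `quads V` is the
family of all sets `{a, b, c, a + b + c}` with `a, b, c` distinct.
-/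

namespace Q202.Steiner

variable (K : Type*) {V : Type*} [Field K] [AddCommGroup V] [Module K V]

/-- the line through `a` with direction `v`. -/
def line (a v : V) : Set V := {x | ∃ t : K, x = a + t • v}

variable (V) in
/-- the family of all affine lines. -/
def lines : Set (Set V) := {b | ∃ a v : V, v ≠ 0 ∧ b = line K a v}

variable (V) in
/-- the family of all sets `{a, b, c, a + b + c}` with `a, b, c` distinct. -/
def quads : Set (Set V) := {q | ∃ a b c : V, a ≠ b ∧ a ≠ c ∧ b ≠ c ∧ q = {a, b, c, a + b + c}}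

variable {K}

theorem self_mem_line (a v : V) : a ∈ line K a v := ⟨0, by simp⟩

theorem end_mem_line (a b : V) : b ∈ line K a (b - a) := ⟨1, by simp⟩

theorem line_eq_of_mem {a v p q : V} (hp : p ∈ line K a v) (hq : q ∈ line K a v)
    (hpq : p ≠ q) : line K a v = line K p (q - p) := by
  obtain ⟨s, rfl⟩ := hp
  obtain ⟨t, rfl⟩ := hq
  have hst : t - s ≠ 0 := by
    intro h
    apply hpq
    rw [sub_eq_zero.1 h]
  have hd : a + t • v - (a + s • v) = (t - s) • v := by rw [sub_smul]; abel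
  ext x
  constructor
  · rintro ⟨r, rfl⟩
    refine ⟨(r - s) / (t - s), ?_⟩
    rw [hd, smul_smul, div_mul_cancel₀ _ hst, sub_smul]
    abel
  · rintro ⟨r, rfl⟩
    refine ⟨s + r * (t - s), ?_⟩
    rw [hd, smul_smul, add_smul]
    abel

theorem eq_line_of_mem {b : Set V} (hb : b ∈ lines K V) {p q : V} (hp : p ∈ b) (hq : q ∈ b)
    (hpq : p ≠ q) : b = line K p (q - p) := by
  obtain ⟨a, v, _, rfl⟩ := hb
  exact line_eq_of_mem hp hq hpq

theorem line_mem_lines {p q : V} (hpq : p ≠ q) : line K p (q - p) ∈ lines K V :=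
  ⟨p, q - p, sub_ne_zero.2 hpq.symm, rfl⟩

theorem encard_line {a v : V} (hv : v ≠ 0) : (line K a v).encard = ENat.card K := by
  have : line K a v = Set.range (fun t : K => a + t • v) := by
    ext x; constructor
    · rintro ⟨t, rfl⟩; exact ⟨t, rfl⟩
    · rintro ⟨t, rfl⟩; exact ⟨t, rfl⟩
  rw [this, ← Set.image_univ, Function.Injective.encard_image, Set.encard_univ]
  intro s t hst
  simp only [add_right_inj] at hst
  exact smul_left_injective K hv hst

theorem steiner_lines [Infinite V] (h4 : ENat.card K = 4) : IsSteinerSystem 2 (lines K V) := by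
  refine ⟨?_, ?_, ?_⟩
  · rintro b ⟨a, v, hv, rfl⟩
    rw [encard_line hv, h4]
    norm_num
  · obtain ⟨v, hv⟩ := exists_ne (0 : V)
    refine ⟨line K 0 v, ⟨0, v, hv, rfl⟩, ?_⟩
    have hfin : (line K 0 v).Finite := by
      rw [← Set.encard_lt_top_iff, encard_line hv, h4]
      exact ENat.natCast_lt_top 4
    obtain ⟨w, hw⟩ := hfin.exists_notMem
    refine ⟨line K w v, ⟨w, v, hv, rfl⟩, ?_⟩
    intro h
    exact hw (h ▸ self_mem_line w v)
  · intro s hs
    obtain ⟨p, q, hpq, rfl⟩ := Set.encard_eq_two.1 (by simpa using hs)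
    refine ⟨line K p (q - p), ⟨line_mem_lines hpq, ?_⟩, ?_⟩
    · rintro x (rfl | rfl)
      · exact self_mem_line _ _
      · exact end_mem_line _ _
    · rintro b ⟨hb, hsb⟩
      exact eq_line_of_mem hb (hsb (by simp)) (hsb (by simp)) hpq

/-! ### The quadruples -/

section char2

variable (h2 : ∀ x : V, x + x = 0)

include h2

theorem sum_ne_left {a b c : V} (hbc : b ≠ c) : a + b + c ≠ a := by
  intro h
  apply hbc
  linear_combination (norm := module) h - h2 c

theorem sum_ne_mid {a b c : V} (hac : a ≠ c) : a + b + c ≠ b := by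
  intro h
  apply hac
  linear_combination (norm := module) h - h2 c

theorem sum_ne_right {a b c : V} (hab : a ≠ b) : a + b + c ≠ c := by
  intro h
  apply hab
  linear_combination (norm := module) h - h2 b

theorem quad_card {a b c : V} (hab : a ≠ b) (hac : a ≠ c) (hbc : b ≠ c) :
    ({a, b, c, a + b + c} : Set V).encard = 4 := by
  have h1 : a + b + c ≠ a := sum_ne_left h2 hbc
  have h3 : a + b + c ≠ b := sum_ne_mid h2 hac
  have h4 : a + b + c ≠ c := sum_ne_right h2 hab
  rw [Set.encard_insert_of_notMem, Set.encard_insert_of_notMem, Set.encard_pair h4.symm]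
  · norm_num
  · simp only [Set.mem_insert_iff, Set.mem_singleton_iff, not_or]
    exact ⟨hbc, h3.symm⟩
  · simp only [Set.mem_insert_iff, Set.mem_singleton_iff, not_or]
    exact ⟨hab, hac, h1.symm⟩

theorem sum_mem_quad {a b c p q r : V} (hp : p ∈ ({a, b, c, a + b + c} : Set V))
    (hq : q ∈ ({a, b, c, a + b + c} : Set V)) (hr : r ∈ ({a, b, c, a + b + c} : Set V))
    (hpq : p ≠ q) (hpr : p ≠ r) (hqr : q ≠ r) : p + q + r ∈ ({a, b, c, a + b + c} : Set V) := by
  simp only [Set.mem_insert_iff, Set.mem_singleton_iff] at hp hq hr ⊢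
  rcases hp with hp | hp | hp | hp <;> rcases hq with hq | hq | hq | hq <;>
    rcases hr with hr | hr | hr | hr <;>
    first
    | exact absurd (hp.trans hq.symm) hpq
    | exact absurd (hp.trans hr.symm) hpr
    | exact absurd (hq.trans hr.symm) hqr
    | (right; right; right; linear_combination (norm := module) hp + hq + hr)
    | (left; linear_combination (norm := module) hp + hq + hr + h2 b + h2 c)
    | (right; left; linear_combination (norm := module) hp + hq + hr + h2 a + h2 c)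
    | (right; right; left; linear_combination (norm := module) hp + hq + hr + h2 a + h2 b)

theorem eq_quad_of_mem {s : Set V} (hs : s.encard = 4)
    (hcl : ∀ p ∈ s, ∀ q ∈ s, ∀ r ∈ s, p ≠ q → p ≠ r → q ≠ r → p + q + r ∈ s) {p q r : V}
    (hp : p ∈ s) (hq : q ∈ s) (hr : r ∈ s) (hpq : p ≠ q) (hpr : p ≠ r) (hqr : q ≠ r) :
    s = {p, q, r, p + q + r} := by
  symm
  apply (Set.toFinite ({p, q, r, p + q + r} : Set V)).eq_of_subset_of_encard_le
  · intro x hx
    simp only [Set.mem_insert_iff, Set.mem_singleton_iff] at hx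
    rcases hx with rfl | rfl | rfl | rfl
    · exact hp
    · exact hq
    · exact hr
    · exact hcl p hp q hq r hr hpq hpr hqr
  · rw [hs, quad_card h2 hpq hpr hqr]

theorem quad_eq_of_mem {s : Set V} (hs : s ∈ quads V) {p q r : V} (hp : p ∈ s) (hq : q ∈ s)
    (hr : r ∈ s) (hpq : p ≠ q) (hpr : p ≠ r) (hqr : q ≠ r) : s = {p, q, r, p + q + r} := by
  obtain ⟨a, b, c, hab, hac, hbc, rfl⟩ := hs
  exact eq_quad_of_mem h2 (quad_card h2 hab hac hbc)
    (fun p hp q hq r hr => sum_mem_quad h2 hp hq hr) hp hq hr hpq hpr hqr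

theorem line_eq_of_mem3 (h4 : ENat.card K = 4) {s : Set V} (hs : s ∈ lines K V) {p q r : V}
    (hp : p ∈ s) (hq : q ∈ s) (hr : r ∈ s) (hpq : p ≠ q) (hpr : p ≠ r) (hqr : q ≠ r) :
    s = {p, q, r, p + q + r} := by
  obtain ⟨a, v, hv, rfl⟩ := hs
  refine eq_quad_of_mem h2 (by rw [encard_line hv, h4]) ?_ hp hq hr hpq hpr hqr
  rintro p ⟨s, rfl⟩ q ⟨t, rfl⟩ r ⟨w, rfl⟩ _ _ _
  refine ⟨s + t + w, ?_⟩
  linear_combination (norm := module) h2 a

theorem steiner_quads [Infinite V] : IsSteinerSystem 3 (quads V) := by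
  refine ⟨?_, ?_, ?_⟩
  · rintro b ⟨a, b, c, hab, hac, hbc, rfl⟩
    rw [quad_card h2 hab hac hbc]
    norm_num
  · obtain ⟨a, ha⟩ := exists_ne (0 : V)
    obtain ⟨b, hb⟩ := (Set.toFinite ({0, a} : Set V)).exists_notMem
    simp only [Set.mem_insert_iff, Set.mem_singleton_iff, not_or] at hb
    refine ⟨{0, a, b, 0 + a + b}, ⟨0, a, b, ha.symm, Ne.symm hb.1, Ne.symm hb.2, rfl⟩, ?_⟩
    obtain ⟨c, hc⟩ := (Set.toFinite ({0, a, b, 0 + a + b} : Set V)).exists_notMem
    have hc' := hc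
    simp only [Set.mem_insert_iff, Set.mem_singleton_iff, not_or] at hc'
    refine ⟨{0, a, c, 0 + a + c}, ⟨0, a, c, ha.symm, Ne.symm hc'.1, Ne.symm hc'.2.1, rfl⟩, ?_⟩
    intro h
    apply hc
    rw [h]
    simp
  · intro s hs
    obtain ⟨p, q, r, hpq, hpr, hqr, rfl⟩ := Set.encard_eq_three.1 (by simpa using hs)
    refine ⟨{p, q, r, p + q + r}, ⟨⟨p, q, r, hpq, hpr, hqr, rfl⟩, ?_⟩, ?_⟩
    · intro x hx
      simp only [Set.mem_insert_iff, Set.mem_singleton_iff] at hx ⊢
      tauto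
    · rintro b ⟨hb, hsb⟩
      exact quad_eq_of_mem h2 hb (hsb (by simp)) (hsb (by simp)) (hsb (by simp)) hpq hpr hqr

end char2

/-! ### Collineations preserve parallelograms -/

theorem Preserves.image_mem {Ω : Type*} {g : Equiv.Perm Ω} {B : Set (Set Ω)}
    (h : Preserves g B) {b : Set Ω} (hb : b ∈ B) : g '' b ∈ B := by
  have : g '' b ∈ (fun b : Set Ω => g '' b) '' B := ⟨b, hb, rfl⟩
  rwa [h] at this

theorem Preserves.exists_image {Ω : Type*} {g : Equiv.Perm Ω} {B : Set (Set Ω)}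
    (h : Preserves g B) {b : Set Ω} (hb : b ∈ B) : ∃ b' ∈ B, g '' b' = b := by
  have : b ∈ (fun b : Set Ω => g '' b) '' B := by rw [h]; exact hb
  obtain ⟨b', hb', h'⟩ := this
  exact ⟨b', hb', h'⟩

theorem Preserves.symm {Ω : Type*} {g : Equiv.Perm Ω} {B : Set (Set Ω)}
    (h : Preserves g B) : Preserves g⁻¹ B := by
  ext b
  constructor
  · rintro ⟨b', hb', rfl⟩
    obtain ⟨b'', hb'', rfl⟩ := h.exists_image hb'
    have : (g⁻¹ : Equiv.Perm Ω) '' (g '' b'') = b'' := by
      rw [← Set.image_comp]; simp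
    simpa [this] using hb''
  · intro hb
    refine ⟨g '' b, h.image_mem hb, ?_⟩
    change (g⁻¹ : Equiv.Perm Ω) '' (g '' b) = b
    rw [← Set.image_comp]; simp

variable (K) in
/-- three points on a common line. -/
def Col (a b c : V) : Prop := ∃ b' ∈ lines K V, a ∈ b' ∧ b ∈ b' ∧ c ∈ b'

variable (K) in
/-- an incidence characterisation of the fourth point of a parallelogram. -/
def Par (a b c d : V) : Prop :=
  (∃ x y, x ≠ y ∧ Col K a b x ∧ Col K a c y ∧ Col K x y d) ∧
  (∃ l ∈ lines K V, ∃ l' ∈ lines K V, b ∈ l ∧ d ∈ l ∧ a ∈ l' ∧ c ∈ l' ∧ Disjoint l l') ∧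
  (∃ l ∈ lines K V, ∃ l' ∈ lines K V, c ∈ l ∧ d ∈ l ∧ a ∈ l' ∧ b ∈ l' ∧ Disjoint l l')

theorem Col.map {g : Equiv.Perm V} (hg : Preserves g (lines K V)) {a b c : V}
    (h : Col K a b c) : Col K (g a) (g b) (g c) := by
  obtain ⟨l, hl, ha, hb, hc⟩ := h
  exact ⟨g '' l, hg.image_mem hl, ⟨a, ha, rfl⟩, ⟨b, hb, rfl⟩, ⟨c, hc, rfl⟩⟩

theorem Col.of_map {g : Equiv.Perm V} (hg : Preserves g (lines K V)) {a b c : V}
    (h : Col K (g a) (g b) (g c)) : Col K a b c := by
  have := Col.map hg.symm h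
  simpa using this

theorem Par.map {g : Equiv.Perm V} (hg : Preserves g (lines K V)) {a b c d : V}
    (h : Par K a b c d) : Par K (g a) (g b) (g c) (g d) := by
  obtain ⟨⟨x, y, hxy, h1, h2, h3⟩, ⟨l, hl, l', hl', h4, h5, h6, h7, h8⟩,
    ⟨m, hm, m', hm', h9, h10, h11, h12, h13⟩⟩ := h
  refine ⟨⟨g x, g y, fun h => hxy (g.injective h), h1.map hg, h2.map hg, h3.map hg⟩, ?_, ?_⟩
  · exact ⟨g '' l, hg.image_mem hl, g '' l', hg.image_mem hl', ⟨_, h4, rfl⟩, ⟨_, h5, rfl⟩,
      ⟨_, h6, rfl⟩, ⟨_, h7, rfl⟩, (Set.disjoint_image_iff g.injective).2 h8⟩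
  · exact ⟨g '' m, hg.image_mem hm, g '' m', hg.image_mem hm', ⟨_, h9, rfl⟩, ⟨_, h10, rfl⟩,
      ⟨_, h11, rfl⟩, ⟨_, h12, rfl⟩, (Set.disjoint_image_iff g.injective).2 h13⟩

theorem col_of_smul {a b c : V} (hac : a ≠ c) {s : K} (h : b - a = s • (c - a)) :
    Col K a b c := by
  refine ⟨line K a (c - a), line_mem_lines hac, self_mem_line _ _, ⟨s, ?_⟩, end_mem_line _ _⟩
  rw [← h]; abel

theorem Col.swap {a b c : V} (h : Col K a b c) : Col K a c b := by
  obtain ⟨l, hl, ha, hb, hc⟩ := h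
  exact ⟨l, hl, ha, hc, hb⟩

theorem ne_of_not_col {a b c : V} [Nontrivial V] (h : ¬ Col K a b c) : a ≠ b ∧ a ≠ c ∧ b ≠ c := by
  obtain ⟨w, hw⟩ := exists_ne (0 : V)
  refine ⟨?_, ?_, ?_⟩
  · rintro rfl
    apply h
    by_cases hac : a = c
    · subst hac
      exact ⟨line K a w, ⟨a, w, hw, rfl⟩, self_mem_line _ _, self_mem_line _ _,
        self_mem_line _ _⟩
    · exact ⟨line K a (c - a), line_mem_lines hac, self_mem_line _ _, self_mem_line _ _,
        end_mem_line _ _⟩
  · rintro rfl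
    apply h
    by_cases hac : a = b
    · subst hac
      exact ⟨line K a w, ⟨a, w, hw, rfl⟩, self_mem_line _ _, self_mem_line _ _,
        self_mem_line _ _⟩
    · exact ⟨line K a (b - a), line_mem_lines hac, self_mem_line _ _, end_mem_line _ _,
        self_mem_line _ _⟩
  · rintro rfl
    apply h
    by_cases hac : a = b
    · subst hac
      exact ⟨line K a w, ⟨a, w, hw, rfl⟩, self_mem_line _ _, self_mem_line _ _,
        self_mem_line _ _⟩
    · exact ⟨line K a (b - a), line_mem_lines hac, self_mem_line _ _, end_mem_line _ _,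
        end_mem_line _ _⟩

theorem par_of_not_col [Nontrivial V] {t : K} (ht0 : t ≠ 0) (ht1 : t ≠ 1) {a b c : V}
    (h : ¬ Col K a b c) : Par K a b c (b + c - a) := by
  obtain ⟨hab, hac, hbc⟩ := ne_of_not_col h
  have ht1' : 1 - t ≠ 0 := sub_ne_zero.2 ht1.symm
  have hdisj : ∀ s t' : K, a + s • (c - a) ≠ b + t' • (c - a) := by
    intro s t' hst
    apply h
    refine col_of_smul hac (s := s - t') ?_
    linear_combination (norm := module) -hst
  have hdisj' : ∀ s t' : K, a + s • (b - a) ≠ c + t' • (b - a) := by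
    intro s t' hst
    apply h
    refine Col.swap (col_of_smul hab (s := s - t') ?_)
    linear_combination (norm := module) -hst
  refine ⟨⟨a + (1 - t)⁻¹ • (b - a), a + t⁻¹ • (c - a), ?_, ?_, ?_, ?_⟩, ?_, ?_⟩
  · intro hxy
    apply h
    refine col_of_smul hac (s := (1 - t) * t⁻¹) ?_
    have h1 : (1 - t)⁻¹ • (b - a) = t⁻¹ • (c - a) := add_left_cancel hxy
    have h3 := congrArg (fun z => (1 - t) • z) h1
    simp only [smul_smul] at h3
    rwa [mul_inv_cancel₀ ht1', one_smul] at h3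
  · exact ⟨line K a (b - a), line_mem_lines hab, self_mem_line _ _, end_mem_line _ _,
      ⟨_, rfl⟩⟩
  · exact ⟨line K a (c - a), line_mem_lines hac, self_mem_line _ _, end_mem_line _ _,
      ⟨_, rfl⟩⟩
  · have hxy : a + (1 - t)⁻¹ • (b - a) ≠ a + t⁻¹ • (c - a) := by
      intro hxy
      apply h
      refine col_of_smul hac (s := (1 - t) * t⁻¹) ?_
      have h1 : (1 - t)⁻¹ • (b - a) = t⁻¹ • (c - a) := add_left_cancel hxy
      have h3 := congrArg (fun z => (1 - t) • z) h1
      simp only [smul_smul] at h3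
      rwa [mul_inv_cancel₀ ht1', one_smul] at h3
    refine ⟨line K _ _, line_mem_lines hxy, self_mem_line _ _, end_mem_line _ _, ⟨t, ?_⟩⟩
    have h1 : (1 - t) • ((1 - t)⁻¹ • (b - a)) = b - a := by
      rw [smul_smul, mul_inv_cancel₀ ht1', one_smul]
    have h3 : t • (t⁻¹ • (c - a)) = c - a := by
      rw [smul_smul, mul_inv_cancel₀ ht0, one_smul]
    linear_combination (norm := module) -h1 - h3
  · refine ⟨line K b (c - a), ⟨b, c - a, sub_ne_zero.2 hac.symm, rfl⟩, line K a (c - a),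
      line_mem_lines hac, self_mem_line _ _, ⟨1, by rw [one_smul]; abel⟩, self_mem_line _ _,
      end_mem_line _ _, ?_⟩
    rw [Set.disjoint_left]
    rintro x ⟨t', rfl⟩ ⟨s, hs⟩
    exact hdisj s t' hs.symm
  · refine ⟨line K c (b - a), ⟨c, b - a, sub_ne_zero.2 hab.symm, rfl⟩, line K a (b - a),
      line_mem_lines hab, self_mem_line _ _, ⟨1, by rw [one_smul]; abel⟩, self_mem_line _ _,
      end_mem_line _ _, ?_⟩
    rw [Set.disjoint_left]
    rintro x ⟨t', rfl⟩ ⟨s, hs⟩
    exact hdisj' s t' hs.symm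

theorem coeff_eq_one {a b c d : V} (h : ¬ Col K a b c) (hac : a ≠ c) {β γ : K}
    (hd : d = a + β • (b - a) + γ • (c - a))
    (hp : ∃ l ∈ lines K V, ∃ l' ∈ lines K V, b ∈ l ∧ d ∈ l ∧ a ∈ l' ∧ c ∈ l' ∧ Disjoint l l') :
    β = 1 := by
  obtain ⟨l, hl, l', hl', hb, hdl, ha, hc, hdis⟩ := hp
  by_contra hβ
  have hβ' : 1 - β ≠ 0 := sub_ne_zero.2 (Ne.symm hβ)
  have hinv : (1 - β)⁻¹ * (1 - β) = 1 := inv_mul_cancel₀ hβ'
  by_cases hbd : b = d
  · apply h
    refine col_of_smul hac (s := (1 - β)⁻¹ * γ) ?_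
    have h1 : (1 - β) • (b - a) = γ • (c - a) := by
      linear_combination (norm := module) hbd.trans hd
    have h3 := congrArg (fun z => (1 - β)⁻¹ • z) h1
    simp only [smul_smul] at h3
    rwa [hinv, one_smul] at h3
  · have hl1 := eq_line_of_mem hl hb hdl hbd
    have hl2 := eq_line_of_mem hl' ha hc hac
    have hm : a + ((1 - β)⁻¹ * γ) • (c - a) ∈ l → a + ((1 - β)⁻¹ * γ) • (c - a) ∈ l' → False :=
      fun h h' => Set.disjoint_left.1 hdis h h'
    refine hm ?_ ?_
    · rw [hl1]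
      refine ⟨(1 - β)⁻¹, ?_⟩
      rw [hd]
      have h1 : ((1 - β)⁻¹ * (1 - β)) • (b - a) = b - a := by rw [hinv, one_smul]
      linear_combination (norm := module) h1
    · rw [hl2]
      exact ⟨_, rfl⟩

theorem eq_of_par [Nontrivial V] {a b c d : V} (h : ¬ Col K a b c) (hp : Par K a b c d) :
    d = b + c - a := by
  obtain ⟨hab, hac, hbc⟩ := ne_of_not_col h
  obtain ⟨⟨x, y, hxy, ⟨l1, hl1, h1, h2, h3⟩, ⟨l2, hl2, h4, h5, h6⟩, ⟨l3, hl3, h7, h8, h9⟩⟩,
    hp1, hp2⟩ := hp
  rw [eq_line_of_mem hl1 h1 h2 hab] at h3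
  rw [eq_line_of_mem hl2 h4 h5 hac] at h6
  rw [eq_line_of_mem hl3 h7 h8 hxy] at h9
  obtain ⟨p, rfl⟩ := h3
  obtain ⟨q, rfl⟩ := h6
  obtain ⟨t, ht⟩ := h9
  have hd : d = a + ((1 - t) * p) • (b - a) + (t * q) • (c - a) := by
    linear_combination (norm := module) ht
  have hβ := coeff_eq_one h hac hd hp1
  have hd' : d = a + (t * q) • (c - a) + ((1 - t) * p) • (b - a) := by
    linear_combination (norm := module) ht
  have hγ := coeff_eq_one (fun h' => h h'.swap) hab hd' hp2
  rw [hd, hβ, hγ]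
  module

theorem map_sum_of_not_col [Nontrivial V] (h2 : ∀ x : V, x + x = 0) {t : K} (ht0 : t ≠ 0)
    (ht1 : t ≠ 1) {g : Equiv.Perm V} (hg : Preserves g (lines K V)) {a b c : V}
    (h : ¬ Col K a b c) : g (a + b + c) = g a + g b + g c := by
  have h1 := (par_of_not_col ht0 ht1 h).map hg
  have h3 := eq_of_par (fun h' => h (Col.of_map hg h')) h1
  have h4 : b + c - a = a + b + c := by linear_combination (norm := module) -h2 a
  rw [h4] at h3
  rw [h3]
  linear_combination (norm := module) -h2 (g a)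

theorem preserves_quads [Nontrivial V] (h4 : ENat.card K = 4) (h2 : ∀ x : V, x + x = 0)
    {t : K} (ht0 : t ≠ 0) (ht1 : t ≠ 1) {g : Equiv.Perm V} (hg : Preserves g (lines K V)) :
    Preserves g (quads V) := by
  have key : ∀ g : Equiv.Perm V, Preserves g (lines K V) → ∀ q ∈ quads V, g '' q ∈ quads V := by
    rintro g hg q ⟨a, b, c, hab, hac, hbc, rfl⟩
    have hab' : g a ≠ g b := fun h => hab (g.injective h)
    have hac' : g a ≠ g c := fun h => hac (g.injective h)
    have hbc' : g b ≠ g c := fun h => hbc (g.injective h)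
    refine ⟨g a, g b, g c, hab', hac', hbc', ?_⟩
    by_cases hcol : Col K a b c
    · obtain ⟨l, hl, ha, hb, hc⟩ := hcol
      rw [← line_eq_of_mem3 h2 h4 hl ha hb hc hab hac hbc]
      exact line_eq_of_mem3 h2 h4 (hg.image_mem hl) ⟨a, ha, rfl⟩ ⟨b, hb, rfl⟩ ⟨c, hc, rfl⟩
        hab' hac' hbc'
    · rw [Set.image_insert_eq, Set.image_insert_eq, Set.image_insert_eq, Set.image_singleton,
        map_sum_of_not_col h2 ht0 ht1 hg hcol]
  ext q
  constructor
  · rintro ⟨q', hq', rfl⟩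
    exact key g hg q' hq'
  · intro hq
    refine ⟨(g⁻¹ : Equiv.Perm V) '' q, key _ hg.symm q hq, ?_⟩
    change g '' ((g⁻¹ : Equiv.Perm V) '' q) = q
    rw [← Set.image_comp]; simp

/-! ### Transitivity -/

theorem exists_linearEquiv {v w : V} (hv : v ≠ 0) (hw : w ≠ 0) : ∃ φ : V ≃ₗ[K] V, φ v = w := by
  let f : Submodule.span K {v} ≃ₗ[K] Submodule.span K {w} :=
    (LinearEquiv.toSpanNonzeroSingleton K V v hv).symm.trans
      (LinearEquiv.toSpanNonzeroSingleton K V w hw)
  obtain ⟨g, hg⟩ := Submodule.exists_linearEquiv_restrict_eq f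
  refine ⟨g, ?_⟩
  have h1 := hg ⟨v, Submodule.mem_span_singleton_self v⟩
  rw [← h1]
  have h3 : (⟨v, Submodule.mem_span_singleton_self v⟩ : Submodule.span K {v}) =
      LinearEquiv.toSpanNonzeroSingleton K V v hv 1 := by
    rw [LinearEquiv.toSpanNonzeroSingleton_one]
  change ((LinearEquiv.toSpanNonzeroSingleton K V w hw
    ((LinearEquiv.toSpanNonzeroSingleton K V v hv).symm _) : Submodule.span K {w}) : V) = w
  rw [h3, LinearEquiv.symm_apply_apply, LinearEquiv.toSpanNonzeroSingleton_one]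

theorem preserves_affine (φ : V ≃ₗ[K] V) (x y : V) :
    Preserves (((Equiv.subRight x).trans φ.toEquiv).trans (Equiv.addLeft y)) (lines K V) := by
  set g : Equiv.Perm V := ((Equiv.subRight x).trans φ.toEquiv).trans (Equiv.addLeft y) with hgdef
  have hg : ∀ z, g z = y + φ (z - x) := fun z => rfl
  have himg : ∀ a v : V, g '' line K a v = line K (g a) (φ v) := by
    intro a v
    ext z
    constructor
    · rintro ⟨_, ⟨t, rfl⟩, rfl⟩
      refine ⟨t, ?_⟩
      rw [hg, hg, add_sub_right_comm, map_add, map_smul]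
      abel
    · rintro ⟨t, rfl⟩
      refine ⟨a + t • v, ⟨t, rfl⟩, ?_⟩
      rw [hg, hg, add_sub_right_comm, map_add, map_smul]
      abel
  ext b
  constructor
  · rintro ⟨_, ⟨a, v, hv, rfl⟩, rfl⟩
    refine ⟨g a, φ v, ?_, himg a v⟩
    intro h
    exact hv (φ.map_eq_zero_iff.1 h)
  · rintro ⟨a, v, hv, rfl⟩
    refine ⟨line K (g.symm a) (φ.symm v), ⟨_, _, ?_, rfl⟩, ?_⟩
    · intro h
      exact hv (φ.symm.map_eq_zero_iff.1 h)
    · change g '' _ = _
      rw [himg]
      simp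

theorem two_transitive : IsKTransitive (Aut (lines K V)) 2 := by
  intro x y
  have hx : x 1 - x 0 ≠ 0 := by
    rw [sub_ne_zero]; exact fun h => absurd (x.injective h) (by decide)
  have hy : y 1 - y 0 ≠ 0 := by
    rw [sub_ne_zero]; exact fun h => absurd (y.injective h) (by decide)
  obtain ⟨φ, hφ⟩ := exists_linearEquiv (K := K) hx hy
  refine ⟨_, preserves_affine φ (x 0) (y 0), ?_⟩
  intro i
  fin_cases i
  · change y 0 + φ (x 0 - x 0) = y 0
    simp
  · change y 0 + φ (x 1 - x 0) = y 1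
    rw [hφ]; abel

end Q202.Steiner
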